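import Pool.Agent.Helper39.TW.Defs

/-! Statements of the modules. -/

namespace TwoWalk

open Finset

/-! ### walks -/

/-- concatenation along an edge -/
def ST_W1 : Prop := ∀ (V : Type) [DecidableEq V] (G : SimpleGraph V) (x z z' y : V) (f g : V → ℕ),
  OW G x z f → G.Adj z z' → OW G z' y g → OW G x y (fun v => f v + g v)

/-- gluing at a vertex -/
def ST_W2 : Prop := ∀ (V : Type) [DecidableEq V] (G : SimpleGraph V) (x z y : V) (f g : V → ℕ),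
  OW G x z f → OW G z y g → OW G x y (fun v => f v + g v - if v = z then 1 else 0)

/-- reversal -/
def ST_W3 : Prop := ∀ (V : Type) [DecidableEq V] (G : SimpleGraph V) (x y : V) (f : V → ℕ),
  OW G x y f → OW G y x f

/-- inserting a closed walk -/
def ST_W4 : Prop := ∀ (V : Type) [DecidableEq V] (G : SimpleGraph V) (x y z : V) (f g : V → ℕ),
  OW G x y f → CW G g → f z ≠ 0 → g z ≠ 0 → OW G x y (fun v => f v + g v)

/-- gluing closed walks -/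
def ST_W5 : Prop := ∀ (V : Type) [DecidableEq V] (G : SimpleGraph V) (z : V) (f g : V → ℕ),
  CW G f → CW G g → f z ≠ 0 → g z ≠ 0 → CW G (fun v => f v + g v)

/-- closing an open walk with a new vertex -/
def ST_W6 : Prop := ∀ (V : Type) [DecidableEq V] (G : SimpleGraph V) (u v t : V) (f : V → ℕ),
  OW G u v f → G.Adj t u → G.Adj t v → CW G (fun w => f w + if w = t then 1 else 0)

/-- the walk of length 0 -/
def ST_W0 : Prop := ∀ (V : Type) [DecidableEq V] (G : SimpleGraph V) (x : V),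
  OW G x x (fun w => if w = x then 1 else 0)

/-- the symmetries of `P2` and `P3` -/
def ST_SYM : Prop := ∀ (V : Type) [DecidableEq V] (G : SimpleGraph V) (S : Finset V) (x y b : V),
  (P2 G S x y → P2 G S y x) ∧ (P3 G S x y b → P3 G S y x b) ∧ (P3 G S x y b → P3 G S x b y)

/-- one half of `P2`: `h` and `p` with `p` visiting `t` once -/
def Half {V : Type} [DecidableEq V] (G : SimpleGraph V) (S : Finset V) (s t : V) : Prop :=
  ∃ h p : V → ℕ, Vis S h ∧ Vis S p ∧ CW G h ∧ OW G s t p ∧ h s = 1 ∧ h t = 1 ∧ p t = 1 ∧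
    dbl S h + 2 * dbl S p + 2 ≤ S.card

/-! ### combination of walks (proof file, section 1) -/

/-- (1a) for `P2` -/
def ST_C2S : Prop := ∀ (V : Type) [DecidableEq V] (G : SimpleGraph V) (S₁ S₂ : Finset V) (x y z : V),
  S₁ ∩ S₂ = {z} → x ∈ S₁ → x ≠ z → y ∈ S₂ → y ≠ z → P2 G S₁ x z → P2 G S₂ z y → P2 G (S₁ ∪ S₂) x y

/-- (1a) for `P3`, `b` in the first part -/
def ST_C3S : Prop := ∀ (V : Type) [DecidableEq V] (G : SimpleGraph V) (S₁ S₂ : Finset V)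
  (x y z b : V), S₁ ∩ S₂ = {z} → x ∈ S₁ → x ≠ z → y ∈ S₂ → y ≠ z → b ∈ S₁ → b ≠ z → b ≠ x →
    P3 G S₁ x z b → P2 G S₂ z y → P3 G (S₁ ∪ S₂) x y b

/-- (1a) for `P3`, `b` the cut vertex -/
def ST_C3Z : Prop := ∀ (V : Type) [DecidableEq V] (G : SimpleGraph V) (S₁ S₂ : Finset V)
  (x y z : V), S₁ ∩ S₂ = {z} → x ∈ S₁ → x ≠ z → y ∈ S₂ → y ≠ z →
    P2 G S₁ x z → P2 G S₂ z y → P3 G (S₁ ∪ S₂) x y z

/-- (1c), `s ≠ u, v` -/
def ST_CH1 : Prop := ∀ (V : Type) [DecidableEq V] (G : SimpleGraph V) (S : Finset V)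
  (u v s t : V), t ∉ S → u ∈ S → v ∈ S → s ∈ S → u ≠ v → s ≠ u → s ≠ v → G.Adj t u → G.Adj t v →
    P3 G S u v s → Half G (insert t S) s t

/-- (1c), `s = u` -/
def ST_CH2 : Prop := ∀ (V : Type) [DecidableEq V] (G : SimpleGraph V) (S : Finset V)
  (u v t : V), t ∉ S → u ∈ S → v ∈ S → u ≠ v → G.Adj t u → G.Adj t v →
    P2 G S u v → Half G (insert t S) u t

/-- (1c), the two halves -/
def ST_CHH : Prop := ∀ (V : Type) [DecidableEq V] (G : SimpleGraph V) (S : Finset V)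
  (x y : V), Half G S x y → Half G S y x → P2 G S x y

/-- (1d), `b ≠ h₁, h₂` -/
def ST_CM1 : Prop := ∀ (V : Type) [DecidableEq V] (G : SimpleGraph V) (M K : Finset V)
  (a c b h₁ h₂ : V), Disjoint M K → a ∈ M → c ∈ M → a ≠ c → h₁ ∈ K → h₂ ∈ K → b ∈ K → h₁ ≠ h₂ →
    b ≠ h₁ → b ≠ h₂ → G.Adj a h₂ → G.Adj c h₁ → P2 G M c a → P3 G K h₂ h₁ b → P3 G (M ∪ K) a c b

/-- (1d), `b = h₂ ≠ h₁` -/
def ST_CM2 : Prop := ∀ (V : Type) [DecidableEq V] (G : SimpleGraph V) (M K : Finset V)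
  (a c b h₁ : V), Disjoint M K → a ∈ M → c ∈ M → a ≠ c → h₁ ∈ K → b ∈ K → b ≠ h₁ →
    G.Adj a b → G.Adj c h₁ → P2 G M c a → P2 G K b h₁ → P3 G (M ∪ K) a c b

/-- (1d), `K = {b}` -/
def ST_CM3 : Prop := ∀ (V : Type) [DecidableEq V] (G : SimpleGraph V) (M : Finset V)
  (a c b : V), b ∉ M → a ∈ M → c ∈ M → a ≠ c → G.Adj a b → G.Adj c b → P2 G M c a →
    P3 G (insert b M) a c b

/-- (1b) -/
def ST_CE : Prop := ∀ (V : Type) [DecidableEq V] (G : SimpleGraph V) (x y : V),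
  x ≠ y → G.Adj x y → P2 G {x, y} x y

/-! ### structure (proof file, sections 2 and 3) -/

/-- (T3) -/
def ST_T3 : Prop := ∀ (V : Type) [DecidableEq V] (G : SimpleGraph V) (X : Finset V) (x y : V),
  Conn G X → x ∈ X → y ∈ X → ∃ P ⊆ X, Ch G P x y

/-- (T4) + (T5): the core; every component of the rest has exactly one neighbour in `K` -/
def ST_T5 : Prop := ∀ (V : Type) [DecidableEq V] (G : SimpleGraph V) (X K₀ : Finset V) (x y : V),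
  Conn G X → K₀ ⊆ X → Ch G K₀ x y → ∃ K, K₀ ⊆ K ∧ K ⊆ X ∧ Ch G K x y ∧
    ∀ E, IsComp G (X \ K) E → ∃ k ∈ K, (∃ e ∈ E, G.Adj e k) ∧ ∀ e ∈ E, ∀ v ∈ K, G.Adj e v → v = k

/-- (1a): splitting at a cut vertex -/
def ST_SPLIT : Prop := ∀ (V : Type) [DecidableEq V] [Fintype V] (G : SimpleGraph V) (S : Finset V)
  (x y : V), Con3 G → Conn G Sᶜ → Ch G S x y → ¬ NC G S →
    ∃ z S₁ S₂, S₁ ∪ S₂ = S ∧ S₁ ∩ S₂ = {z} ∧ x ∈ S₁ ∧ x ≠ z ∧ y ∈ S₂ ∧ y ≠ z ∧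
      Ch G S₁ x z ∧ Ch G S₂ z y ∧ Conn G S₁ᶜ ∧ Conn G S₂ᶜ ∧ Rim G S₁ z ∧ Rim G S₂ z

/-- (HUB) -/
def ST_HUB : Prop := ∀ (V : Type) [DecidableEq V] [Fintype V] (G : SimpleGraph V) (S : Finset V)
  (t : V), Con3 G → NoK33 G → Conn G Sᶜ → NC G S → 3 ≤ S.card → t ∈ S →
    ∃ u ∈ S.erase t, ∃ v ∈ S.erase t, u ≠ v ∧ G.Adj t u ∧ G.Adj t v ∧ Ch G (S.erase t) u v

/-- (3.1) -/
def ST_G2 : Prop := ∀ (V : Type) [DecidableEq V] (G : SimpleGraph V) (S : Finset V) (a c : V),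
  NC G S → 3 ≤ S.card → a ∈ S → c ∈ S → a ≠ c →
    ∃ K ⊆ S, a ∉ K ∧ c ∉ K ∧ Conn G K ∧ (∃ k ∈ K, G.Adj a k) ∧ (∃ k ∈ K, G.Adj c k) ∧
      Conn G (S \ K)

/-- feasible triple -/
def Feas {V : Type} [DecidableEq V] (G : SimpleGraph V) (S : Finset V) (a c : V)
    (K : Finset V) (h₁ h₂ : V) : Prop :=
  K ⊆ S ∧ a ∉ K ∧ c ∉ K ∧ G.Adj a h₂ ∧ G.Adj c h₁ ∧ Ch G K h₂ h₁ ∧ Conn G (S \ K)

/-- (3.2) -/
def ST_F0 : Prop := ∀ (V : Type) [DecidableEq V] (G : SimpleGraph V) (S : Finset V) (a c : V),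
  NC G S → 3 ≤ S.card → a ∈ S → c ∈ S → a ≠ c → ∃ K h₁ h₂, Feas G S a c K h₁ h₂

/-- (3.3)(i): a piece with two neighbours in `K` can be used to enlarge `K` -/
def ST_X1 : Prop := ∀ (V : Type) [DecidableEq V] (G : SimpleGraph V) (S : Finset V) (a c : V)
  (K : Finset V) (h₁ h₂ y : V) (D : Finset V), NC G S → a ∈ S → c ∈ S → a ≠ c →
    Feas G S a c K h₁ h₂ → y ∈ S \ K → IsComp G ((S \ K).erase y) D → a ∉ D → c ∉ D →
    (∃ k ∈ K, ∃ l ∈ K, k ≠ l ∧ (∃ d ∈ D, G.Adj d k) ∧ ∃ d ∈ D, G.Adj d l) →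
    ∃ K', K ⊂ K' ∧ Feas G S a c K' h₁ h₂

/-- (3.3)(iii): `y = a` gives a feasible triple with more rim vertices -/
def ST_X3 : Prop := ∀ (V : Type) [DecidableEq V] [Fintype V] (G : SimpleGraph V) (S : Finset V)
  (a c : V) (K : Finset V) (h₁ h₂ : V) (D : Finset V), Con3 G → NoK33 G → Conn G Sᶜ → NC G S →
    Rim G S a → Rim G S c → a ≠ c → Feas G S a c K h₁ h₂ → IsComp G ((S \ K).erase a) D → c ∉ D →
    (∃ w ∈ K, ∀ d ∈ D, ∀ v ∈ K, G.Adj d v → v = w) →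
    ∃ K' h', Feas G S a c K' h₁ h' ∧ (∀ v ∈ K, Rim G S v → v ∈ K') ∧ ∃ v ∈ K', v ∉ K ∧ Rim G S v

/-- (3.3)(iv): if there is no bad component at `a` and `c`, then there is none -/
def ST_X4 : Prop := ∀ (V : Type) [DecidableEq V] [Fintype V] (G : SimpleGraph V) (S : Finset V)
  (a c : V) (K : Finset V) (h₁ h₂ y : V) (D : Finset V), Con3 G → NoK33 G → Conn G Sᶜ → NC G S →
    Rim G S a → Rim G S c → a ≠ c → Feas G S a c K h₁ h₂ →
    (∀ E, IsComp G ((S \ K).erase a) E → c ∈ E) → (∀ E, IsComp G ((S \ K).erase c) E → a ∈ E) →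
    y ∈ S \ K → IsComp G ((S \ K).erase y) D → a ∉ D → c ∉ D →
    (∃ w ∈ K, ∀ d ∈ D, ∀ v ∈ K, G.Adj d v → v = w) → False

/-- (3.3) -/
def ST_X : Prop := ∀ (V : Type) [DecidableEq V] [Fintype V] (G : SimpleGraph V) (S : Finset V)
  (a c : V) (B K : Finset V) (h₁ h₂ : V), Con3 G → NoK33 G → Conn G Sᶜ → NC G S →
    Rim G S a → Rim G S c → a ≠ c → Feas G S a c K h₁ h₂ → B ⊆ K → (∀ v ∈ B, Rim G S v) →
    ∃ K' h₁' h₂', Feas G S a c K' h₁' h₂' ∧ B ⊆ K' ∧ Ch G (S \ K') c a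

/-- (3.4), the case `b ∈ M` -/
def ST_ST2 : Prop := ∀ (V : Type) [DecidableEq V] (G : SimpleGraph V) (S : Finset V) (a c b : V)
  (K : Finset V) (h₁ h₂ : V), NC G S → a ∈ S → c ∈ S → a ≠ c → Feas G S a c K h₁ h₂ →
    Ch G (S \ K) c a → b ∈ S \ K → b ≠ a → b ≠ c →
    ∃ K' h₁' h₂', Feas G S a c K' h₁' h₂' ∧ b ∈ K'

/-- Lemma CUT -/
def ST_CUT : Prop := ∀ (V : Type) [DecidableEq V] [Fintype V] (G : SimpleGraph V) (S : Finset V)
  (a c b : V), Con3 G → NoK33 G → Conn G Sᶜ → NC G S → Rim G S a → Rim G S c → Rim G S b →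
    a ≠ c → b ≠ a → b ≠ c →
    ∃ K h₁ h₂, Feas G S a c K h₁ h₂ ∧ b ∈ K ∧ Ch G (S \ K) c a

/-! ### main theorem -/

/-- main theorem -/
def ST_MAIN : Prop := ∀ (V : Type) [DecidableEq V] [Fintype V] (G : SimpleGraph V) (S : Finset V)
  (x y : V), Con3 G → NoK33 G → Conn G Sᶜ → Ch G S x y → Rim G S x → Rim G S y → x ≠ y →
    P2 G S x y ∧ ∀ b, Rim G S b → b ≠ x → b ≠ y → P3 G S x y b

/-- spanning closed 2-walks -/
def ST_TOP : Prop := ∀ (V : Type) [DecidableEq V] [Fintype V] (G : SimpleGraph V),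
  4 ≤ Fintype.card V → Con3 G → NoK33 G →
    ∃ f : V → ℕ, Vis univ f ∧ CW G f ∧ 3 * dbl univ f ≤ Fintype.card V

end TwoWalk
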