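import Pool.Agent.Helper39.TW.Stmts

/-! Connected vertex sets and components. -/

namespace TwoWalk

open Finset

variable {V : Type} [DecidableEq V] {G : SimpleGraph V}

omit [DecidableEq V] in
lemma AdjS.symm {A B : Finset V} (h : AdjS G A B) : AdjS G B A := by
  obtain ⟨a, ha, b, hb, hab⟩ := h
  exact ⟨b, hb, a, ha, hab.symm⟩

omit [DecidableEq V] in
lemma AdjS.mono {A B A' B' : Finset V} (h : AdjS G A B) (hA : A ⊆ A') (hB : B ⊆ B') :
    AdjS G A' B' := by
  obtain ⟨a, ha, b, hb, hab⟩ := h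
  exact ⟨a, hA ha, b, hB hb, hab⟩

omit [DecidableEq V] in
lemma adjS_of {A B : Finset V} {a b : V} (ha : a ∈ A) (hb : b ∈ B) (h : G.Adj a b) :
    AdjS G A B := ⟨a, ha, b, hb, h⟩

lemma conn_singleton (a : V) : Conn G {a} := by
  refine ⟨singleton_nonempty a, fun B hB hne h => ?_⟩
  rcases subset_singleton_iff.1 hB with h1 | h1
  · exact absurd h1 hne.ne_empty
  · exact absurd h1 h

/-- the union of two connected sets which touch -/
lemma Conn.union {A B : Finset V} (hA : Conn G A) (hB : Conn G B)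
    (h : AdjS G A B ∨ (A ∩ B).Nonempty) : Conn G (A ∪ B) := by
  refine ⟨hA.1.mono subset_union_left, fun C hC hne hCne => ?_⟩
  by_cases h1 : (C ∩ A).Nonempty ∧ C ∩ A ≠ A
  · obtain ⟨a, ha, b, hb, hab⟩ := hA.2 (C ∩ A) inter_subset_right h1.1 h1.2
    refine ⟨a, (mem_inter.1 ha).1, b, ?_, hab⟩
    rw [mem_sdiff, mem_inter] at hb
    exact mem_sdiff.2 ⟨mem_union_left _ hb.1, fun h => hb.2 ⟨h, hb.1⟩⟩
  by_cases h2 : (C ∩ B).Nonempty ∧ C ∩ B ≠ B
  · obtain ⟨a, ha, b, hb, hab⟩ := hB.2 (C ∩ B) inter_subset_right h2.1 h2.2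
    refine ⟨a, (mem_inter.1 ha).1, b, ?_, hab⟩
    rw [mem_sdiff, mem_inter] at hb
    exact mem_sdiff.2 ⟨mem_union_right _ hb.1, fun h => hb.2 ⟨h, hb.1⟩⟩
  have h1' : C ∩ A = ∅ ∨ A ⊆ C := by
    by_contra hh
    push Not at hh
    refine h1 ⟨hh.1, fun h => hh.2 ?_⟩
    rw [← h]; exact inter_subset_left
  have h2' : C ∩ B = ∅ ∨ B ⊆ C := by
    by_contra hh
    push Not at hh
    refine h2 ⟨hh.1, fun h => hh.2 ?_⟩
    rw [← h]; exact inter_subset_left
  have key : ∀ {A B : Finset V}, C ∩ A = ∅ → B ⊆ C → C ⊆ A ∪ B →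
      (AdjS G A B ∨ (A ∩ B).Nonempty) → AdjS G C ((A ∪ B) \ C) := by
    intro A B hCA hBC _ hor
    rcases hor with ⟨a, ha, b, hb, hab⟩ | ⟨x, hx⟩
    · refine ⟨b, hBC hb, a, mem_sdiff.2 ⟨mem_union_left _ ha, fun haC => ?_⟩, hab.symm⟩
      have : a ∈ C ∩ A := mem_inter.2 ⟨haC, ha⟩
      rw [hCA] at this
      exact absurd this (notMem_empty _)
    · have : x ∈ C ∩ A := mem_inter.2 ⟨hBC (mem_inter.1 hx).2, (mem_inter.1 hx).1⟩
      rw [hCA] at this
      exact absurd this (notMem_empty _)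
  rcases h1' with h1' | h1' <;> rcases h2' with h2' | h2'
  · obtain ⟨x, hx⟩ := hne
    rcases mem_union.1 (hC hx) with hxA | hxB
    · have : x ∈ C ∩ A := mem_inter.2 ⟨hx, hxA⟩
      rw [h1'] at this
      exact absurd this (notMem_empty _)
    · have : x ∈ C ∩ B := mem_inter.2 ⟨hx, hxB⟩
      rw [h2'] at this
      exact absurd this (notMem_empty _)
  · exact key h1' h2' hC h
  · have := key (A := B) (B := A) h2' h1' (by rwa [union_comm]) (by
      rcases h with h | h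
      · exact Or.inl h.symm
      · right; rwa [inter_comm])
    rwa [union_comm] at this
  · exact absurd (subset_antisymm hC (union_subset h1' h2')) hCne

lemma Conn.insert {A : Finset V} (hA : Conn G A) {a b : V} (ha : a ∈ A) (hab : G.Adj a b) :
    Conn G (insert b A) := by
  have := hA.union (conn_singleton (G := G) b) (Or.inl ⟨a, ha, b, mem_singleton_self b, hab⟩)
  rwa [union_comm, ← insert_eq] at this

lemma IsComp.subset {X D : Finset V} (h : IsComp G X D) : D ⊆ X := h.1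
lemma IsComp.conn {X D : Finset V} (h : IsComp G X D) : Conn G D := h.2.1
lemma IsComp.nonempty {X D : Finset V} (h : IsComp G X D) : D.Nonempty := h.2.1.1

/-- a neighbour in `X` of a vertex of the component is in the component -/
lemma IsComp.mem_of_adj {X D : Finset V} (h : IsComp G X D) {d v : V} (hd : d ∈ D) (hv : v ∈ X)
    (hdv : G.Adj d v) : v ∈ D := by
  by_contra hvD
  exact h.2.2 ⟨d, hd, v, mem_sdiff.2 ⟨hv, hvD⟩, hdv⟩

/-- a connected subset of `X` which meets the component is inside -/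
lemma IsComp.subset_of {X D E : Finset V} (h : IsComp G X D) (hE : Conn G E) (hEX : E ⊆ X)
    (hne : (E ∩ D).Nonempty) : E ⊆ D := by
  by_contra hED
  obtain ⟨a, ha, b, hb, hab⟩ := hE.2 (E ∩ D) inter_subset_left hne (fun h => hED (by
    rw [← h]; exact inter_subset_right))
  rw [mem_sdiff, mem_inter] at hb
  exact hb.2 ⟨hb.1, h.mem_of_adj (mem_inter.1 ha).2 (hEX hb.1) hab⟩

lemma IsComp.subset_of_mem {X D E : Finset V} (h : IsComp G X D) (hE : Conn G E) (hEX : E ⊆ X)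
    {x : V} (hx : x ∈ E) (hxD : x ∈ D) : E ⊆ D :=
  h.subset_of hE hEX ⟨x, mem_inter.2 ⟨hx, hxD⟩⟩

lemma exists_comp {X : Finset V} {x : V} (hx : x ∈ X) : ∃ D, IsComp G X D ∧ x ∈ D := by
  classical
  let F := X.powerset.filter (fun D => Conn G D ∧ x ∈ D)
  have hF : F.Nonempty := ⟨{x}, mem_filter.2 ⟨mem_powerset.2 (singleton_subset_iff.2 hx),
    conn_singleton x, mem_singleton_self x⟩⟩
  obtain ⟨D, hD, hmax⟩ := exists_max_image F card hF
  have hD' := mem_filter.1 hD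
  refine ⟨D, ⟨mem_powerset.1 hD'.1, hD'.2.1, ?_⟩, hD'.2.2⟩
  rintro ⟨a, ha, b, hb, hab⟩
  have hb' := mem_sdiff.1 hb
  have := hmax (insert b D) (mem_filter.2 ⟨mem_powerset.2 (insert_subset hb'.1
    (mem_powerset.1 hD'.1)), hD'.2.1.insert ha hab, mem_insert_of_mem hD'.2.2⟩)
  rw [card_insert_of_notMem hb'.2] at this
  omega

lemma IsComp.eq_of_mem {X D E : Finset V} (hD : IsComp G X D) (hE : IsComp G X E) {x : V}
    (hxD : x ∈ D) (hxE : x ∈ E) : D = E :=
  subset_antisymm (hE.subset_of_mem hD.conn hD.subset hxD hxE)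
    (hD.subset_of_mem hE.conn hE.subset hxE hxD)

lemma IsComp.eq_or_disjoint {X D E : Finset V} (hD : IsComp G X D) (hE : IsComp G X E) :
    D = E ∨ Disjoint D E := by
  by_cases h : Disjoint D E
  · exact Or.inr h
  · rw [not_disjoint_iff] at h
    obtain ⟨x, hx, hx'⟩ := h
    exact Or.inl (hD.eq_of_mem hE hx hx')

lemma Conn.isComp {X : Finset V} (h : Conn G X) : IsComp G X X := by
  refine ⟨subset_rfl, h, ?_⟩
  rintro ⟨a, _, b, hb, _⟩
  simp at hb

lemma IsComp.eq_of_conn {X D : Finset V} (h : IsComp G X D) (hX : Conn G X) : D = X := by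
  obtain ⟨x, hx⟩ := h.nonempty
  exact h.eq_of_mem hX.isComp hx (h.subset hx)

/-- if all components contain `y` then the set is connected -/
lemma conn_of_comp_mem {X : Finset V} {y : V} (hne : X.Nonempty)
    (h : ∀ D, IsComp G X D → y ∈ D) : Conn G X := by
  obtain ⟨x, hx⟩ := hne
  obtain ⟨D, hD, hxD⟩ := exists_comp (G := G) hx
  have hyD := h D hD
  have : D = X := by
    refine subset_antisymm hD.subset (fun v hv => ?_)
    obtain ⟨E, hE, hvE⟩ := exists_comp (G := G) hv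
    rwa [hD.eq_of_mem hE hyD (h E hE)]
  rw [← this]
  exact hD.conn

/-- (T1) a hanging piece can be removed -/
lemma conn_sdiff_hang {X D : Finset V} {z : V} (hX : Conn G X) (hDX : D ⊆ X) (hz : z ∈ X)
    (hzD : z ∉ D) (h : ∀ d ∈ D, ∀ v ∈ X, v ∉ D → G.Adj d v → v = z) : Conn G (X \ D) := by
  refine ⟨⟨z, mem_sdiff.2 ⟨hz, hzD⟩⟩, fun B hB hne hBne => ?_⟩
  by_cases hzB : z ∈ B
  · have h1 : B ∪ D ≠ X := by
      intro he
      apply hBne
      refine subset_antisymm hB (fun v hv => ?_)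
      rw [mem_sdiff] at hv
      have : v ∈ B ∪ D := by rw [he]; exact hv.1
      rcases mem_union.1 this with h | h
      · exact h
      · exact absurd h hv.2
    obtain ⟨a, ha, b, hb, hab⟩ := hX.2 (B ∪ D)
      (union_subset (hB.trans sdiff_subset) hDX) (hne.mono subset_union_left) h1
    rw [mem_sdiff, mem_union, not_or] at hb
    rcases mem_union.1 ha with ha | ha
    · exact ⟨a, ha, b, mem_sdiff.2 ⟨mem_sdiff.2 ⟨hb.1, hb.2.2⟩, hb.2.1⟩, hab⟩
    · have := h a ha b hb.1 hb.2.2 hab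
      rw [this] at hb
      exact absurd hzB hb.2.1
  · have h1 : B ≠ X := by
      rintro rfl
      exact hzB hz
    obtain ⟨a, ha, b, hb, hab⟩ := hX.2 B (hB.trans sdiff_subset) hne h1
    rw [mem_sdiff] at hb
    have haX := mem_sdiff.1 (hB ha)
    refine ⟨a, ha, b, mem_sdiff.2 ⟨mem_sdiff.2 ⟨hb.1, fun hbD => ?_⟩, hb.2⟩, hab⟩
    have := h b hbD a haX.1 haX.2 hab.symm
    rw [this] at ha
    exact hzB ha

/-- the neighbours in `X` of a component of `X.erase z` -/
lemma IsComp.eq_of_adj_erase {X D : Finset V} {z : V} (h : IsComp G (X.erase z) D) {d v : V}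
    (hd : d ∈ D) (hv : v ∈ X) (hvD : v ∉ D) (hdv : G.Adj d v) : v = z := by
  by_contra hne
  exact hvD (h.mem_of_adj hd (mem_erase.2 ⟨hne, hv⟩) hdv)

lemma IsComp.notMem_erase {X D : Finset V} {z : V} (h : IsComp G (X.erase z) D) : z ∉ D :=
  fun hz => (mem_erase.1 (h.subset hz)).1 rfl

lemma IsComp.subset_erase {X D : Finset V} {z : V} (h : IsComp G (X.erase z) D) : D ⊆ X :=
  h.subset.trans (erase_subset _ _)

/-- a component of `X.erase z` is adjacent to `z` -/
lemma IsComp.adj_erase {X D : Finset V} {z : V} (hX : Conn G X) (hz : z ∈ X)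
    (h : IsComp G (X.erase z) D) : ∃ d ∈ D, G.Adj d z := by
  obtain ⟨a, ha, b, hb, hab⟩ := hX.2 D h.subset_erase h.nonempty
    (fun he => h.notMem_erase (he ▸ hz))
  rw [mem_sdiff] at hb
  have := h.eq_of_adj_erase ha hb.1 hb.2 hab
  exact ⟨a, ha, this ▸ hab⟩

/-- the rest of a connected set after removing a component of `X.erase z` -/
lemma IsComp.conn_sdiff {X D : Finset V} {z : V} (hX : Conn G X) (hz : z ∈ X)
    (h : IsComp G (X.erase z) D) : Conn G (X \ D) :=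
  conn_sdiff_hang hX h.subset_erase hz h.notMem_erase
    (fun _ hd _ hv hvD hdv => h.eq_of_adj_erase hd hv hvD hdv)

/-- `X` is connected if `A ⊆ X` is connected and every component of the rest touches `A` -/
lemma conn_of_attach {X A : Finset V} (hA : Conn G A) (hAX : A ⊆ X)
    (h : ∀ E, IsComp G (X \ A) E → AdjS G E A) : Conn G X := by
  obtain ⟨a, ha⟩ := hA.1
  refine conn_of_comp_mem (y := a) ⟨a, hAX ha⟩ (fun D hD => ?_)
  obtain ⟨x, hx⟩ := hD.nonempty
  by_cases hxA : x ∈ A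
  · exact hD.subset_of_mem hA hAX hxA hx ha
  · obtain ⟨E, hE, hxE⟩ := exists_comp (G := G) (mem_sdiff.2 ⟨hD.subset hx, hxA⟩)
    have h1 : Conn G (E ∪ A) := hE.conn.union hA (Or.inl (h E hE))
    have h2 : E ∪ A ⊆ X := union_subset (hE.subset.trans sdiff_subset) hAX
    exact hD.subset_of_mem h1 h2 (mem_union_left _ hxE) hx (mem_union_right _ ha)

/-- `A ∪ E` is connected for components `E` -/
lemma conn_sdiff_of_comps {S K M' : Finset V} (hM : Conn G M') (hMS : M' ⊆ S \ K)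
    (h : ∀ E, IsComp G ((S \ K) \ M') E → AdjS G E M') : Conn G (S \ K) :=
  conn_of_attach hM hMS h

/-- (T2) a proper part of a set without cut vertices has a neighbour different from `k` -/
lemma NC.exists_adj {S E : Finset V} (hS : NC G S) (hES : E ⊆ S) (hne : E.Nonempty) {k : V}
    (hk : k ∉ E) (hv : ∃ v ∈ S, v ∉ E ∧ v ≠ k) : ∃ e ∈ E, ∃ v ∈ S, v ∉ E ∧ v ≠ k ∧ G.Adj e v := by
  obtain ⟨v, hvS, hvE, hvk⟩ := hv
  by_cases hkS : k ∈ S
  · have hc := hS.2 k hkS ⟨v, mem_erase.2 ⟨hvk, hvS⟩⟩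
    obtain ⟨a, ha, b, hb, hab⟩ := hc.2 E (fun e he => mem_erase.2 ⟨fun h => hk (h ▸ he), hES he⟩)
      hne (fun he => hvE (he ▸ mem_erase.2 ⟨hvk, hvS⟩))
    rw [mem_sdiff, mem_erase] at hb
    exact ⟨a, ha, b, hb.1.2, hb.2, hb.1.1, hab⟩
  · obtain ⟨a, ha, b, hb, hab⟩ := hS.1.2 E hES hne (fun he => hvE (he ▸ hvS))
    rw [mem_sdiff] at hb
    exact ⟨a, ha, b, hb.1, hb.2, fun h => hkS (h ▸ hb.1), hab⟩

lemma NC.conn {S : Finset V} (hS : NC G S) : Conn G S := hS.1

/-- (3C) -/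
lemma Con3.exists_rim [Fintype V] (h3 : Con3 G) {S D T : Finset V} (hS : (Sᶜ).Nonempty)
    (hDS : D ⊆ S) (hne : D.Nonempty) (hT : T.card ≤ 2) (hTS : T ⊆ S) (hDT : Disjoint D T)
    (hn : ∀ d ∈ D, ∀ v ∈ S, v ∉ D → G.Adj d v → v ∈ T) : ∃ d ∈ D, ∃ y, y ∉ S ∧ G.Adj d y := by
  obtain ⟨s, hs⟩ := hS
  rw [mem_compl] at hs
  obtain ⟨a, ha, b, hb, hab⟩ := (h3 T hT).2 D (fun d hd => mem_compl.2 (disjoint_left.1 hDT hd))
    hne (fun he => hs (hDS (by rw [he, mem_compl]; exact fun h => hs (hTS h))))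
  rw [mem_sdiff, mem_compl] at hb
  refine ⟨a, ha, b, fun hbS => hb.1 (hn a ha b hbS hb.2 hab), hab⟩

/-- a component of `S.erase z` reaches the outside -/
lemma Con3.comp_rim [Fintype V] (h3 : Con3 G) {S D : Finset V} {z : V} (hS : (Sᶜ).Nonempty)
    (hz : z ∈ S) (hD : IsComp G (S.erase z) D) : ∃ d ∈ D, ∃ y, y ∉ S ∧ G.Adj d y :=
  h3.exists_rim hS hD.subset_erase hD.nonempty (T := {z}) (by simp) (singleton_subset_iff.2 hz)
    (disjoint_singleton_right.2 hD.notMem_erase)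
    (fun d hd v hv hvD hdv => mem_singleton.2 (hD.eq_of_adj_erase hd hv hvD hdv))

lemma Ch.conn {K : Finset V} {x y : V} (h : Ch G K x y) : Conn G K := h.1
lemma Ch.left_mem {K : Finset V} {x y : V} (h : Ch G K x y) : x ∈ K := h.2.1
lemma Ch.right_mem {K : Finset V} {x y : V} (h : Ch G K x y) : y ∈ K := h.2.2.1

lemma Ch.symm {K : Finset V} {x y : V} (h : Ch G K x y) : Ch G K y x :=
  ⟨h.1, h.2.2.1, h.2.1, fun z hz D hD => (h.2.2.2 z hz D hD).symm⟩

lemma Ch.comp_mem {K D : Finset V} {x y z : V} (h : Ch G K x y) (hz : z ∈ K)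
    (hD : IsComp G (K.erase z) D) : x ∈ D ∨ y ∈ D := h.2.2.2 z hz D hD

lemma Ch.conn_erase_left {K : Finset V} {x y : V} (h : Ch G K x y) (hxy : x ≠ y) :
    Conn G (K.erase x) := by
  refine conn_of_comp_mem (y := y) ⟨y, mem_erase.2 ⟨hxy.symm, h.right_mem⟩⟩ (fun D hD => ?_)
  rcases h.comp_mem h.left_mem hD with h1 | h1
  · exact absurd h1 hD.notMem_erase
  · exact h1

lemma Ch.conn_erase_right {K : Finset V} {x y : V} (h : Ch G K x y) (hxy : x ≠ y) :
    Conn G (K.erase y) := h.symm.conn_erase_left hxy.symm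

lemma Ch.eq_singleton {K : Finset V} {x : V} (h : Ch G K x x) : K = {x} := by
  by_contra hne
  have : (K.erase x).Nonempty := by
    rw [nonempty_iff_ne_empty]
    intro he
    apply hne
    rw [erase_eq_empty_iff] at he
    rcases he with he | he
    · exact absurd h.left_mem (he ▸ notMem_empty x)
    · exact he
  obtain ⟨v, hv⟩ := this
  obtain ⟨D, hD, _⟩ := exists_comp (G := G) hv
  rcases h.comp_mem h.left_mem hD with h1 | h1 <;> exact hD.notMem_erase h1

lemma ch_of_NC {S : Finset V} {x y : V} (hS : NC G S) (hx : x ∈ S) (hy : y ∈ S) (hxy : x ≠ y) :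
    Ch G S x y := by
  refine ⟨hS.1, hx, hy, fun z hz D hD => ?_⟩
  have hne : (S.erase z).Nonempty := hD.nonempty.mono hD.subset
  have := hD.eq_of_conn (hS.2 z hz hne)
  rw [this]
  by_cases h : x = z
  · right; exact mem_erase.2 ⟨fun h' => hxy (h.trans h'.symm), hy⟩
  · left; exact mem_erase.2 ⟨h, hx⟩

omit [DecidableEq V] in
lemma Rim.mem [Fintype V] {S : Finset V} {x : V} (h : Rim G S x) : x ∈ S := h.1

lemma Rim.adjS [Fintype V] {S A : Finset V} {x : V} (h : Rim G S x) (hx : x ∈ A) :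
    AdjS G A Sᶜ := by
  obtain ⟨_, y, hy, hxy⟩ := h
  exact ⟨x, hx, y, mem_compl.2 hy, hxy⟩

end TwoWalk
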