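import Pool.Agent.Helper39.TW.Lib
import Pool.Agent.Helper38.PL.Drawing

/-! From the frozen hypotheses to `Con3` and `NoK33`. -/

namespace TwoWalk

open Finset

variable {V : Type} [DecidableEq V] {G : SimpleGraph V}

theorem conn_of_induce {A : Finset V} (h : (G.induce (A : Set V)).Connected) : Conn G A := by
  obtain ⟨hpre, ⟨a⟩⟩ := (SimpleGraph.connected_iff _).1 h
  refine ⟨⟨a.1, a.2⟩, fun B hB hne hBne => ?_⟩
  obtain ⟨b, hb⟩ := hne
  have : ∃ c ∈ A, c ∉ B := by
    by_contra hcon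
    push Not at hcon
    exact hBne (subset_antisymm hB hcon)
  obtain ⟨c, hcA, hcB⟩ := this
  obtain ⟨w⟩ := hpre ⟨b, hB hb⟩ ⟨c, hcA⟩
  obtain ⟨d, _, hd1, hd2⟩ := w.exists_boundary_dart {x : (A : Set V) | x.1 ∈ B} hb hcB
  exact ⟨d.fst.1, hd1, d.snd.1, mem_sdiff.2 ⟨d.snd.2, hd2⟩, d.adj⟩

theorem induce_of_conn {A : Finset V} (h : Conn G A) : (G.induce (A : Set V)).Connected := by
  classical
  obtain ⟨a, ha⟩ := h.1
  rw [SimpleGraph.connected_iff_exists_forall_reachable]
  refine ⟨⟨a, ha⟩, fun v => ?_⟩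
  by_contra hv
  let B : Finset V := A.filter (fun x => ∃ hx : x ∈ (A : Set V),
    (G.induce (A : Set V)).Reachable ⟨a, ha⟩ ⟨x, hx⟩)
  have haB : a ∈ B := mem_filter.2 ⟨ha, ha, SimpleGraph.Reachable.refl _⟩
  have hvB : v.1 ∉ B := fun h => hv (by
    obtain ⟨_, hx, hr⟩ := mem_filter.1 h
    exact hr)
  obtain ⟨x, hx, y, hy, hxy⟩ := h.2 B (filter_subset _ _) ⟨a, haB⟩ (fun he => hvB (by
    rw [he]; exact v.2))
  rw [mem_sdiff] at hy
  obtain ⟨hxA, hx', hr⟩ := mem_filter.1 hx
  apply hy.2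
  refine mem_filter.2 ⟨hy.1, hy.1, hr.trans (SimpleGraph.Adj.reachable ?_)⟩
  exact hxy

theorem con3_of_induce [Fintype V]
    (h : ∀ S : Finset V, S.card ≤ 2 → (G.induce {v | v ∉ S}).Connected) : Con3 G := by
  intro T hT
  apply conn_of_induce
  have : ((Tᶜ : Finset V) : Set V) = {v | v ∉ T} := by
    ext v; simp
  rw [this]
  exact h T hT

theorem noK33_of_drawn (h : Pool.Agent.Helper38.PL.PlaneDrawn G) : NoK33 G := by
  intro X1 X2 X3 Y1 Y2 Y3 hp hc ha
  simp only [List.pairwise_cons, List.mem_cons, List.not_mem_nil, or_false, List.Pairwise.nil,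
      and_true, forall_eq_or_imp, forall_eq, false_implies, implies_true] at hp hc ha
  obtain ⟨⟨x12, x13, z11, z12, z13⟩, ⟨x23, z21, z22, z23⟩, ⟨z31, z32, z33⟩, ⟨y12, y13⟩, y23⟩ := hp
  obtain ⟨c1, c2, c3, d1, d2, d3⟩ := hc
  obtain ⟨⟨a11, a12, a13⟩, ⟨a21, a22, a23⟩, a31, a32, a33⟩ := ha
  have D : ∀ {A B : Finset V}, Disjoint A B → Disjoint (A : Set V) (B : Set V) :=
    fun h => Finset.disjoint_coe.2 h
  refine h.no_K33 ![(X1 : Set V), X2, X3] ![(Y1 : Set V), Y2, Y3] ⟨?_, ?_, ?_, ?_, ?_, ?_⟩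
  · intro i
    fin_cases i
    · exact induce_of_conn c1
    · exact induce_of_conn c2
    · exact induce_of_conn c3
  · intro i
    fin_cases i
    · exact induce_of_conn d1
    · exact induce_of_conn d2
    · exact induce_of_conn d3
  · intro i k hik
    fin_cases i <;> fin_cases k
    · exact absurd rfl hik
    · exact D x12
    · exact D x13
    · exact (D x12).symm
    · exact absurd rfl hik
    · exact D x23
    · exact (D x13).symm
    · exact (D x23).symm
    · exact absurd rfl hik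
  · intro i k hik
    fin_cases i <;> fin_cases k
    · exact absurd rfl hik
    · exact D y12
    · exact D y13
    · exact (D y12).symm
    · exact absurd rfl hik
    · exact D y23
    · exact (D y13).symm
    · exact (D y23).symm
    · exact absurd rfl hik
  · intro i k
    fin_cases i <;> fin_cases k
    · exact D z11
    · exact D z12
    · exact D z13
    · exact D z21
    · exact D z22
    · exact D z23
    · exact D z31
    · exact D z32
    · exact D z33
  · intro i k
    fin_cases i <;> fin_cases k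
    · exact a11
    · exact a12
    · exact a13
    · exact a21
    · exact a22
    · exact a23
    · exact a31
    · exact a32
    · exact a33

/-- the final statement from `ST_TOP` -/
theorem final_of_top (hT : ST_TOP) :
  ∃ s₀ : ℝ, ∀ (V : Type) [Fintype V] [DecidableEq V] (G : SimpleGraph V),
    4 ≤ Fintype.card V →
    (∀ S : Finset V, S.card ≤ 2 → (G.induce {v | v ∉ S}).Connected) →
    (∃ (f : V → ℝ × ℝ) (γ : V → V → C(unitInterval, ℝ × ℝ)),
      Function.Injective f ∧
      (∀ u v, G.Adj u v →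
        γ u v 0 = f u ∧ γ u v 1 = f v ∧ Function.Injective ⇑(γ u v) ∧
        ∀ t : unitInterval, t ≠ 0 → t ≠ 1 → ∀ w, γ u v t ≠ f w) ∧
      (∀ u v u' v', G.Adj u v → G.Adj u' v' → s(u, v) ≠ s(u', v') →
        ∀ t t' : unitInterval, t ≠ 0 → t ≠ 1 → t' ≠ 0 → t' ≠ 1 →
          γ u v t ≠ γ u' v' t')) →
    ∃ (x : V) (w : G.Walk x x),
      (∀ y, 1 ≤ w.support.tail.count y ∧ w.support.tail.count y ≤ 2) ∧
      (((Finset.univ.filter (fun y => w.support.tail.count y = 2)).card : ℝ)
        ≤ (Fintype.card V : ℝ) / 3 + s₀) := by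
  refine ⟨0, fun V _ _ G h4 h3 hd => ?_⟩
  obtain ⟨f, hv, ⟨x, w, hw⟩, hf⟩ := hT V G h4 (con3_of_induce h3) (noK33_of_drawn hd)
  refine ⟨x, w, fun y => ?_, ?_⟩
  · rw [hw y]
    rcases hv.1 y (mem_univ y) with h | h <;> omega
  · have : (Finset.univ.filter (fun y => w.support.tail.count y = 2)) =
        Finset.univ.filter (fun y => f y = 2) := by
      apply filter_congr
      intro y _
      rw [hw y]
    rw [this]
    have h5 : (3 : ℝ) * ((Finset.univ.filter (fun y => f y = 2)).card : ℝ) ≤ Fintype.card V := by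
      exact_mod_cast hf
    linarith

end TwoWalk
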