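import Pool.Agent.Helper39.TW.Lib

/-! Module X4. -/

namespace TwoWalk

open Finset

theorem X4_k33 {V : Type} [DecidableEq V] {G : SimpleGraph V} (h : NoK33 G)
    {X1 X2 X3 Y1 Y2 Y3 : Finset V}
    (c1 : Conn G X1) (c2 : Conn G X2) (c3 : Conn G X3)
    (d1 : Conn G Y1) (d2 : Conn G Y2) (d3 : Conn G Y3)
    (x12 : Disjoint X1 X2) (x13 : Disjoint X1 X3) (x23 : Disjoint X2 X3)
    (y12 : Disjoint Y1 Y2) (y13 : Disjoint Y1 Y3) (y23 : Disjoint Y2 Y3)
    (z11 : Disjoint X1 Y1) (z12 : Disjoint X1 Y2) (z13 : Disjoint X1 Y3)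
    (z21 : Disjoint X2 Y1) (z22 : Disjoint X2 Y2) (z23 : Disjoint X2 Y3)
    (z31 : Disjoint X3 Y1) (z32 : Disjoint X3 Y2) (z33 : Disjoint X3 Y3)
    (a11 : AdjS G X1 Y1) (a12 : AdjS G X1 Y2) (a13 : AdjS G X1 Y3)
    (a21 : AdjS G X2 Y1) (a22 : AdjS G X2 Y2) (a23 : AdjS G X2 Y3)
    (a31 : AdjS G X3 Y1) (a32 : AdjS G X3 Y2) (a33 : AdjS G X3 Y3) : False := by
  refine h X1 X2 X3 Y1 Y2 Y3 ?_ ?_ ?_
  · simp only [List.pairwise_cons, List.mem_cons, List.not_mem_nil, or_false, List.Pairwise.nil,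
      and_true, forall_eq_or_imp, forall_eq, false_implies, implies_true]
    exact ⟨⟨x12, x13, z11, z12, z13⟩, ⟨x23, z21, z22, z23⟩, ⟨z31, z32, z33⟩, ⟨y12, y13⟩, y23⟩
  · intro A hA
    simp only [List.mem_cons, List.not_mem_nil, or_false] at hA
    rcases hA with rfl | rfl | rfl | rfl | rfl | rfl <;> assumption
  · intro A hA B hB
    simp only [List.mem_cons, List.not_mem_nil, or_false] at hA hB
    rcases hA with rfl | rfl | rfl <;> rcases hB with rfl | rfl | rfl <;> assumption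

theorem st_X4 : ST_X4 := by
  intro V _ _ G S a c K h₁ h₂ y D hc3 hk33 hSc hS ha hc hac hF hAa hAc hy hD haD hcD hw
  obtain ⟨hKS, haK, hcK, hah, hch, hCh, hM⟩ := hF
  have hyS := (mem_sdiff.1 hy).1
  have hyK := (mem_sdiff.1 hy).2
  have haM : a ∈ S \ K := mem_sdiff.2 ⟨ha.mem, haK⟩
  have hcM : c ∈ S \ K := mem_sdiff.2 ⟨hc.mem, hcK⟩
  have hya : y ≠ a := by
    rintro rfl
    exact hcD (hAa D hD)
  have hyc : y ≠ c := by
    rintro rfl
    exact haD (hAc D hD)
  obtain ⟨w, hwK, hw⟩ := hw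
  have hDM : D ⊆ S \ K := hD.subset_erase
  have hDS : D ⊆ S := hDM.trans sdiff_subset
  have hyD : y ∉ D := hD.notMem_erase
  have hDK : ∀ d ∈ D, d ∉ K := fun d hd => (mem_sdiff.1 (hDM hd)).2
  -- D reaches the outside
  have hDout : AdjS G D Sᶜ := by
    obtain ⟨d, hd, z, hz, hdz⟩ := hc3.exists_rim (T := {y, w}) hSc.1 hDS hD.nonempty
      (card_le_two) (by
        intro v hv
        rw [mem_insert, mem_singleton] at hv
        rcases hv with rfl | rfl
        · exact hyS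
        · exact hKS hwK) (by
        rw [disjoint_left]
        intro v hv hv'
        rw [mem_insert, mem_singleton] at hv'
        rcases hv' with rfl | rfl
        · exact hyD hv
        · exact hDK v hv hwK) (fun d hd v hv hvD hdv => by
        rw [mem_insert, mem_singleton]
        by_cases hvK : v ∈ K
        · exact Or.inr (hw d hd v hvK hdv)
        · exact Or.inl (hD.eq_of_adj_erase hd (mem_sdiff.2 ⟨hv, hvK⟩) hvD hdv))
    exact ⟨d, hd, z, mem_compl.2 hz, hdz⟩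
  have hDKadj : AdjS G D K := by
    obtain ⟨d, hd, v, hvS, hvD, hvy, hdv⟩ := hS.exists_adj hDS hD.nonempty hyD
      ⟨a, ha.mem, haD, hya.symm⟩
    by_cases hvK : v ∈ K
    · exact ⟨d, hd, v, hvK, hdv⟩
    · exact absurd (hD.eq_of_adj_erase hd (mem_sdiff.2 ⟨hvS, hvK⟩) hvD hdv) hvy
  obtain ⟨d₀, hd₀, hd₀y⟩ := hD.adj_erase hM hy
  have hKSc : Disjoint K Sᶜ := disjoint_left.2 (fun v hv hv' => (mem_compl.1 hv') (hKS hv))
  have hMSc : ∀ {A : Finset V}, A ⊆ S \ K → Disjoint A Sᶜ := fun hA =>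
    disjoint_left.2 (fun v hv hv' => (mem_compl.1 hv') (mem_sdiff.1 (hA hv)).1)
  have hMK : ∀ {A : Finset V}, A ⊆ S \ K → Disjoint A K := fun hA =>
    disjoint_left.2 (fun v hv hv' => (mem_sdiff.1 (hA hv)).2 hv')
  obtain ⟨A, hA, haA⟩ := exists_comp (G := G) (mem_erase.2 ⟨hya.symm, haM⟩)
  obtain ⟨C, hC, hcC⟩ := exists_comp (G := G) (mem_erase.2 ⟨hyc.symm, hcM⟩)
  by_cases hAC : A = C
  · subst hAC
    obtain ⟨Y, hY, hyY⟩ := exists_comp (G := G)
      (mem_erase.2 ⟨hyc, mem_erase.2 ⟨hya, hy⟩⟩ : y ∈ ((S \ K).erase a).erase c)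
    have hYM : Y ⊆ S \ K := hY.subset.trans ((erase_subset _ _).trans (erase_subset _ _))
    have haY : a ∉ Y := fun h => (mem_erase.1 (mem_of_mem_erase (hY.subset h))).1 rfl
    have hcY : c ∉ Y := fun h => (mem_erase.1 (hY.subset h)).1 rfl
    by_cases hYc : ∃ u ∈ Y, G.Adj u c
    · by_cases hYa : ∃ u ∈ Y, G.Adj u a
      · have hDY : D ⊆ Y := by
          have hDsub : D ⊆ ((S \ K).erase a).erase c := fun v hv =>
            mem_erase.2 ⟨fun h => hcD (h ▸ hv), mem_erase.2 ⟨fun h => haD (h ▸ hv), hDM hv⟩⟩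
          exact hY.subset_of_mem hD.conn hDsub hd₀
            (hY.mem_of_adj hyY (hDsub hd₀) hd₀y.symm)
        have hYD : Conn G (Y \ D) := conn_sdiff_hang hY.conn hDY hyY hyD
          (fun d hd v hv hvD hdv => hD.eq_of_adj_erase hd (hYM hv) hvD hdv)
        have hYDM : Y \ D ⊆ S \ K := sdiff_subset.trans hYM
        have hYDadj : ∀ t, t ∈ S \ K → t ∉ D → t ≠ y → (∃ u ∈ Y, G.Adj u t) →
            AdjS G {t} (Y \ D) := by
          rintro t ht htD hty ⟨u, hu, hut⟩
          exact ⟨t, mem_singleton_self t, u, mem_sdiff.2 ⟨hu, fun huD =>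
            hty (hD.eq_of_adj_erase huD ht htD hut)⟩, hut.symm⟩
        refine X4_k33 hk33 hD.conn (conn_singleton a) (conn_singleton c) hYD hCh.conn hSc
          (disjoint_singleton_right.2 haD) (disjoint_singleton_right.2 hcD)
          (by rw [disjoint_singleton]; exact hac)
          (hMK hYDM) (hMSc hYDM) hKSc
          disjoint_sdiff (hMK hDM) (hMSc hDM)
          (disjoint_singleton_left.2 fun h => haY (mem_sdiff.1 h).1)
          (disjoint_singleton_left.2 haK)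
          (disjoint_singleton_left.2 fun h => (mem_compl.1 h) ha.mem)
          (disjoint_singleton_left.2 fun h => hcY (mem_sdiff.1 h).1)
          (disjoint_singleton_left.2 hcK)
          (disjoint_singleton_left.2 fun h => (mem_compl.1 h) hc.mem)
          ⟨d₀, hd₀, y, mem_sdiff.2 ⟨hyY, hyD⟩, hd₀y⟩ hDKadj hDout
          (hYDadj a haM haD hya.symm hYa) ⟨a, mem_singleton_self a, h₂, hCh.left_mem, hah⟩
          (ha.adjS (mem_singleton_self a))
          (hYDadj c hcM hcD hyc.symm hYc) ⟨c, mem_singleton_self c, h₁, hCh.right_mem, hch⟩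
          (hc.adjS (mem_singleton_self c))
      · apply haY
        apply hAc
        rw [erase_right_comm] at hY
        refine ⟨hY.subset.trans (erase_subset _ _), hY.conn, ?_⟩
        rintro ⟨u, hu, v, hv, huv⟩
        rw [mem_sdiff] at hv
        by_cases hva : v = a
        · exact hYa ⟨u, hu, hva ▸ huv⟩
        · exact hv.2 (hY.mem_of_adj hu (mem_erase.2 ⟨hva, hv.1⟩) huv)
    · apply hcY
      apply hAa
      refine ⟨hY.subset.trans (erase_subset _ _), hY.conn, ?_⟩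
      rintro ⟨u, hu, v, hv, huv⟩
      rw [mem_sdiff] at hv
      by_cases hvc : v = c
      · exact hYc ⟨u, hu, hvc ▸ huv⟩
      · exact hv.2 (hY.mem_of_adj hu (mem_erase.2 ⟨hvc, hv.1⟩) huv)
  · have hAM := hA.subset_erase
    have hCM := hC.subset_erase
    have hDA : Disjoint D A := (hD.eq_or_disjoint hA).resolve_left (fun h => haD (h ▸ haA))
    have hDC : Disjoint D C := (hD.eq_or_disjoint hC).resolve_left (fun h => hcD (h ▸ hcC))
    have hACd : Disjoint A C := (hA.eq_or_disjoint hC).resolve_left hAC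
    obtain ⟨a', ha', ha'y⟩ := hA.adj_erase hM hy
    obtain ⟨c', hc', hc'y⟩ := hC.adj_erase hM hy
    exact X4_k33 hk33 hD.conn hA.conn hC.conn (conn_singleton y) hCh.conn hSc
      hDA hDC hACd
      (disjoint_singleton_left.2 hyK) (disjoint_singleton_left.2 fun h => (mem_compl.1 h) hyS) hKSc
      (disjoint_singleton_right.2 hyD) (hMK hDM) (hMSc hDM)
      (disjoint_singleton_right.2 hA.notMem_erase) (hMK hAM) (hMSc hAM)
      (disjoint_singleton_right.2 hC.notMem_erase) (hMK hCM) (hMSc hCM)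
      ⟨d₀, hd₀, y, mem_singleton_self y, hd₀y⟩ hDKadj hDout
      ⟨a', ha', y, mem_singleton_self y, ha'y⟩ ⟨a, haA, h₂, hCh.left_mem, hah⟩ (ha.adjS haA)
      ⟨c', hc', y, mem_singleton_self y, hc'y⟩ ⟨c, hcC, h₁, hCh.right_mem, hch⟩ (hc.adjS hcC)

end TwoWalk
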