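import Pool.Agent.Helper39.TW.T
import Pool.Agent.Helper39.TW.X4
import Pool.Agent.Helper39.TW.Bridge
import Pool.Agent.Helper38.TW.CH
import Pool.Agent.Helper38.TW.CS
import Pool.Agent.Helper41.TW.X
import Pool.Agent.Helper41.TW.CUT
import Pool.Agent.Helper44.TW.MAIN
import Pool.Agent.Helper44.TW.X1
import Pool.Agent.Helper44.TW.HUB
import Pool.Agent.Helper47.TW.W
import Pool.Agent.Helper47.TW.TOP
import Pool.Agent.Helper57.TW.CM
import Pool.Agent.Helper78.TW.X3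
import Pool.Agent.Helper87.TW.G2
import Pool.Agent.Helper87.TW.SPLIT

/-! Assembly. -/

namespace TwoWalk

/-- every 3-connected graph without `K_{3,3}` minor has a spanning closed 2-walk with at most
`|V| / 3` doubly visited vertices -/
theorem top : ST_TOP :=
  st_TOP (st_MAIN (st_SYM st_W3) (st_C2S st_W2 st_W5) (st_C3S st_W2 st_W3 st_W4)
    (st_C3Z st_W2 st_W3 st_W4) (st_CE st_W0 st_W1 st_W6) (st_CH1 st_W0 st_W1 st_W3 st_W6)
    (st_CH2 st_W0 st_W1 st_W4 st_W6) (st_CHH st_W3) (st_CM1 st_W0 st_W1 st_W3 st_W4)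
    (st_CM2 st_W0 st_W1 st_W3 st_W4) (st_CM3 st_W0 st_W1 st_W3 st_W4) st_SPLIT st_HUB
    (st_CUT (st_F0 st_G2 st_T3 st_T5) (st_X (st_X1 st_T5) (st_X3 st_T3 st_T5) st_X4)
      (st_ST2 st_T3 st_T5)))
    st_W0 st_W5 st_W6

end TwoWalk
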