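import Mathlib

/-! Spanning closed 2-walks in 3-connected graphs without `K_{3,3}` minor: definitions. -/

namespace TwoWalk

open Finset

section
variable {V : Type} [DecidableEq V] (G : SimpleGraph V)

/-- there is an edge between `A` and `B` -/
def AdjS (A B : Finset V) : Prop := ∃ a ∈ A, ∃ b ∈ B, G.Adj a b

/-- `A` is nonempty and induces a connected graph -/
def Conn (A : Finset V) : Prop :=
  A.Nonempty ∧ ∀ B ⊆ A, B.Nonempty → B ≠ A → AdjS G B (A \ B)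

/-- `D` is a component of `X` -/
def IsComp (X D : Finset V) : Prop := D ⊆ X ∧ Conn G D ∧ ¬ AdjS G D (X \ D)

/-- `K` is a chain of blocks from `x` to `y` -/
def Ch (K : Finset V) (x y : V) : Prop :=
  Conn G K ∧ x ∈ K ∧ y ∈ K ∧ ∀ z ∈ K, ∀ D, IsComp G (K.erase z) D → x ∈ D ∨ y ∈ D

/-- `S` is connected and has no cut vertex -/
def NC (S : Finset V) : Prop :=
  Conn G S ∧ ∀ z ∈ S, (S.erase z).Nonempty → Conn G (S.erase z)

/-- `G` has no `K_{3,3}` minor -/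
def NoK33 : Prop :=
  ∀ X1 X2 X3 Y1 Y2 Y3 : Finset V,
    [X1, X2, X3, Y1, Y2, Y3].Pairwise Disjoint →
    (∀ A ∈ [X1, X2, X3, Y1, Y2, Y3], Conn G A) →
    (∀ A ∈ [X1, X2, X3], ∀ B ∈ [Y1, Y2, Y3], AdjS G A B) → False

/-- the walk `x → y` with visit numbers `f` exists -/
def OW (x y : V) (f : V → ℕ) : Prop :=
  ∃ w : G.Walk x y, ∀ v, w.support.count v = f v

/-- a closed walk with visit numbers `f` exists -/
def CW (f : V → ℕ) : Prop :=
  ∃ (x : V) (w : G.Walk x x), ∀ v, w.support.tail.count v = f v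

/-- the visit numbers are `1` or `2` on `S` and `0` outside -/
def Vis (S : Finset V) (f : V → ℕ) : Prop :=
  (∀ v ∈ S, f v = 1 ∨ f v = 2) ∧ ∀ v ∉ S, f v = 0

/-- the number of doubly visited vertices -/
def dbl (S : Finset V) (f : V → ℕ) : ℕ := (S.filter (fun v => f v = 2)).card

/-- closed walk `h` and two open walks `p`, `q` from `x` to `y` -/
def P2 (S : Finset V) (x y : V) : Prop :=
  ∃ h p q : V → ℕ, Vis S h ∧ Vis S p ∧ Vis S q ∧ CW G h ∧ OW G x y p ∧ OW G x y q ∧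
    h x = 1 ∧ h y = 1 ∧ p y = 1 ∧ q x = 1 ∧
    dbl S h + 2 * dbl S p + 2 ≤ S.card ∧ dbl S h + 2 * dbl S q + 2 ≤ S.card

/-- three open walks between three terminals, each visiting the third terminal once -/
def P3 (S : Finset V) (x y b : V) : Prop :=
  ∃ f₁ f₂ f₃ : V → ℕ, Vis S f₁ ∧ Vis S f₂ ∧ Vis S f₃ ∧
    OW G y b f₁ ∧ f₁ x = 1 ∧ OW G x b f₂ ∧ f₂ y = 1 ∧ OW G x y f₃ ∧ f₃ b = 1 ∧
    dbl S f₁ + dbl S f₂ + dbl S f₃ + 1 ≤ S.card

end

section
variable {V : Type} [DecidableEq V] [Fintype V] (G : SimpleGraph V)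

/-- `G` is 3-connected -/
def Con3 : Prop := ∀ T : Finset V, T.card ≤ 2 → Conn G Tᶜ

/-- `x ∈ S` has a neighbour outside `S` -/
def Rim (S : Finset V) (x : V) : Prop := x ∈ S ∧ ∃ y, y ∉ S ∧ G.Adj x y

end

end TwoWalk
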