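import Pool.Agent.Helper39.TW.Lib

/-! Modules T3, T5. -/

namespace TwoWalk

open Finset

/-- (T3) -/
theorem st_T3 : ST_T3 := by
  intro V _ G X x y hX hx hy
  classical
  let F := X.powerset.filter (fun D => Conn G D ∧ x ∈ D ∧ y ∈ D)
  have hF : F.Nonempty := ⟨X, mem_filter.2 ⟨mem_powerset.2 subset_rfl, hX, hx, hy⟩⟩
  obtain ⟨P, hP, hmin⟩ := exists_min_image F card hF
  have hP' := mem_filter.1 hP
  have hPX := mem_powerset.1 hP'.1
  refine ⟨P, hPX, hP'.2.1, hP'.2.2.1, hP'.2.2.2, fun z hz D hD => ?_⟩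
  by_contra hcon
  push Not at hcon
  have h1 := hD.conn_sdiff hP'.2.1 hz
  have h2 := hmin (P \ D) (mem_filter.2 ⟨mem_powerset.2 (sdiff_subset.trans hPX), h1,
    mem_sdiff.2 ⟨hP'.2.2.1, hcon.1⟩, mem_sdiff.2 ⟨hP'.2.2.2, hcon.2⟩⟩)
  have h3 : (P \ D).card < P.card := by
    apply card_lt_card
    refine ⟨sdiff_subset, fun h => ?_⟩
    obtain ⟨d, hd⟩ := hD.nonempty
    exact (mem_sdiff.1 (h (hD.subset_erase hd))).2 hd
  omega

/-- (T4) -/
theorem T_ear {V : Type} [DecidableEq V] {G : SimpleGraph V} {X K E : Finset V} {x y : V}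
    (hK : Ch G K x y) (hE : IsComp G (X \ K) E)
    (h2 : ∃ k ∈ K, ∃ l ∈ K, k ≠ l ∧ (∃ d ∈ E, G.Adj d k) ∧ ∃ d ∈ E, G.Adj d l) :
    ∃ P ⊆ E, P.Nonempty ∧ Ch G (K ∪ P) x y := by
  classical
  let F := E.powerset.filter (fun D => Conn G D ∧
    ∃ k ∈ K, ∃ l ∈ K, k ≠ l ∧ (∃ d ∈ D, G.Adj d k) ∧ ∃ d ∈ D, G.Adj d l)
  have hF : F.Nonempty := ⟨E, mem_filter.2 ⟨mem_powerset.2 subset_rfl, hE.conn, h2⟩⟩
  obtain ⟨P, hP, hmin⟩ := exists_min_image F card hF
  have hP' := mem_filter.1 hP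
  have hPE := mem_powerset.1 hP'.1
  have hPc := hP'.2.1
  obtain ⟨k, hk, l, hl, hkl, ⟨d, hd, hdk⟩, e, he, hel⟩ := hP'.2.2
  have hdisj : ∀ p ∈ P, p ∉ K := fun p hp => (mem_sdiff.1 (hE.subset (hPE hp))).2
  have hconn : Conn G (K ∪ P) := hK.conn.union hPc (Or.inl ⟨k, hk, d, hd, hdk.symm⟩)
  refine ⟨P, hPE, hPc.1, hconn, mem_union_left _ hK.left_mem, mem_union_left _ hK.right_mem,
    fun z hz D hD => ?_⟩
  by_cases hDK : ∃ v ∈ D, v ∈ K
  · obtain ⟨v, hvD, hvK⟩ := hDK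
    by_cases hzK : z ∈ K
    · have hvz : v ≠ z := fun h => hD.notMem_erase (h ▸ hvD)
      obtain ⟨D', hD', hvD'⟩ := exists_comp (G := G) (mem_erase.2 ⟨hvz, hvK⟩)
      have hsub : D' ⊆ D := hD.subset_of_mem hD'.conn
        (fun w hw => mem_erase.2 ⟨fun h => hD'.notMem_erase (h ▸ hw),
          mem_union_left _ (hD'.subset_erase hw)⟩) hvD' hvD
      rcases hK.comp_mem hzK hD' with h | h
      · exact Or.inl (hsub h)
      · exact Or.inr (hsub h)
    · have hsub : K ⊆ D := hD.subset_of_mem hK.conn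
        (fun w hw => mem_erase.2 ⟨fun h => hzK (h ▸ hw), mem_union_left _ hw⟩) hvK hvD
      exact Or.inl (hsub hK.left_mem)
  · exfalso
    push Not at hDK
    have hDP : D ⊆ P := fun v hv => by
      rcases mem_union.1 (hD.subset_erase hv) with h | h
      · exact absurd h (hDK v hv)
      · exact h
    by_cases hzK : z ∈ K
    · -- D = P
      have hPD : P ⊆ D := by
        obtain ⟨v, hv⟩ := hD.nonempty
        exact hD.subset_of_mem hPc (fun w hw => mem_erase.2 ⟨fun h => hdisj w hw (h ▸ hzK),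
          mem_union_right _ hw⟩) (hDP hv) hv
      by_cases hkz : k = z
      · have hlz : l ≠ z := fun h => hkl (hkz.trans h.symm)
        exact hDK l (hD.mem_of_adj (hPD he) (mem_erase.2 ⟨hlz, mem_union_left _ hl⟩) hel) hl
      · exact hDK k (hD.mem_of_adj (hPD hd) (mem_erase.2 ⟨hkz, mem_union_left _ hk⟩) hdk) hk
    · have hzP : z ∈ P := (mem_union.1 hz).resolve_left hzK
      have hDc : IsComp G (P.erase z) D := by
        refine ⟨fun v hv => mem_erase.2 ⟨fun h => hD.notMem_erase (h ▸ hv), hDP hv⟩, hD.conn, ?_⟩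
        rintro ⟨a, ha, b, hb, hab⟩
        rw [mem_sdiff, mem_erase] at hb
        exact hb.2 (hD.mem_of_adj ha (mem_erase.2 ⟨hb.1.1, mem_union_right _ hb.1.2⟩) hab)
      have h1 := hDc.conn_sdiff hPc hzP
      have hnK : ∀ v ∈ D, ∀ w ∈ K, ¬ G.Adj v w := fun v hv w hw hvw =>
        hDK w (hD.mem_of_adj hv (mem_erase.2 ⟨fun h => hzK (h ▸ hw), mem_union_left _ hw⟩) hvw) hw
      have h3 := hmin (P \ D) (mem_filter.2 ⟨mem_powerset.2 (sdiff_subset.trans hPE), h1,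
        k, hk, l, hl, hkl, ⟨d, mem_sdiff.2 ⟨hd, fun h => hnK d h k hk hdk⟩, hdk⟩,
        e, mem_sdiff.2 ⟨he, fun h => hnK e h l hl hel⟩, hel⟩)
      have h4 : (P \ D).card < P.card := by
        apply card_lt_card
        refine ⟨sdiff_subset, fun h => ?_⟩
        obtain ⟨v, hv⟩ := hD.nonempty
        exact (mem_sdiff.1 (h (hDP hv))).2 hv
      omega

/-- (T5) -/
theorem st_T5 : ST_T5 := by
  intro V _ G X K₀ x y hX hK₀X hK₀
  classical
  let F := X.powerset.filter (fun D => K₀ ⊆ D ∧ Ch G D x y)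
  have hF : F.Nonempty := ⟨K₀, mem_filter.2 ⟨mem_powerset.2 hK₀X, subset_rfl, hK₀⟩⟩
  obtain ⟨K, hK, hmax⟩ := exists_max_image F card hF
  have hK' := mem_filter.1 hK
  have hKX := mem_powerset.1 hK'.1
  refine ⟨K, hK'.2.1, hKX, hK'.2.2, fun E hE => ?_⟩
  have hEK : ∀ e ∈ E, e ∉ K := fun e he => (mem_sdiff.1 (hE.subset he)).2
  have hEX : E ⊆ X := hE.subset.trans sdiff_subset
  obtain ⟨e, he, k, hk, hek⟩ := hX.2 E hEX hE.nonempty (fun h => by
    exact hEK x (h ▸ hKX hK'.2.2.left_mem) hK'.2.2.left_mem)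
  have hkK : k ∈ K := by
    by_contra hkK
    rw [mem_sdiff] at hk
    exact hk.2 (hE.mem_of_adj he (mem_sdiff.2 ⟨hk.1, hkK⟩) hek)
  refine ⟨k, hkK, ⟨e, he, hek⟩, fun e' he' v hv hev => ?_⟩
  by_contra hne
  obtain ⟨P, hPE, hPne, hP⟩ := T_ear (X := X) hK'.2.2 hE
    ⟨v, hv, k, hkK, hne, ⟨e', he', hev⟩, e, he, hek⟩
  have h1 := hmax (K ∪ P) (mem_filter.2 ⟨mem_powerset.2 (union_subset hKX (hPE.trans hEX)),
    hK'.2.1.trans subset_union_left, hP⟩)
  have h2 : K.card < (K ∪ P).card := by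
    apply card_lt_card
    refine ⟨subset_union_left, fun h => ?_⟩
    obtain ⟨p, hp⟩ := hPne
    exact hEK p (hPE hp) (h (mem_union_right _ hp))
  omega

end TwoWalk
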